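import Pool.Agent.LibHB89.A1
import Pool.Agent.LibHB89.A2

/-!
Elementary symmetric functions of `1 / k ^ s` and the multiple zeta values `ζ({s}^n)`.
-/

set_option autoImplicit false

namespace Pool.T78

open Polynomial Finset Filter Pool.HB89
open scoped ENNReal Topology

/-- `∏_{k < K} (1 + a_k X)`. -/
noncomputable def P (a : ℕ → ℝ) (K : ℕ) : ℝ[X] := ∏ k ∈ range K, (1 + C (a k) * X)

/-- `1 / (k + 1) ^ s`. -/
noncomputable def an (s k : ℕ) : ℝ := (((k : ℝ) + 1) ^ s)⁻¹

theorem an_pos (s k : ℕ) : 0 < an s k := by unfold an; positivity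

theorem P_zero (a : ℕ → ℝ) : P a 0 = 1 := by simp [P]

theorem P_succ (a : ℕ → ℝ) (K : ℕ) : P a (K + 1) = P a K * (1 + C (a K) * X) := by
  simp [P, prod_range_succ]

theorem coeff_zero (a : ℕ → ℝ) (K : ℕ) : (P a K).coeff 0 = 1 := by
  induction K with
  | zero => simp [P_zero]
  | succ K ih => rw [P_succ, mul_coeff_zero, ih]; simp

theorem coeff_succ (a : ℕ → ℝ) (K n : ℕ) :
    (P a (K + 1)).coeff (n + 1) = (P a K).coeff (n + 1) + a K * (P a K).coeff n := by
  rw [P_succ, mul_add, mul_one, coeff_add, ← mul_assoc, coeff_mul_X, coeff_mul_C]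
  ring

theorem coeff_nonneg (a : ℕ → ℝ) (ha : ∀ k, 0 ≤ a k) (K n : ℕ) : 0 ≤ (P a K).coeff n := by
  induction K generalizing n with
  | zero => rw [P_zero, coeff_one]; split_ifs <;> norm_num
  | succ K ih =>
    cases n with
    | zero => rw [coeff_zero]; norm_num
    | succ n => rw [coeff_succ]; exact add_nonneg (ih _) (mul_nonneg (ha _) (ih _))

theorem coeff_mono (a : ℕ → ℝ) (ha : ∀ k, 0 ≤ a k) (n : ℕ) : Monotone fun K => (P a K).coeff n := by
  refine monotone_nat_of_le_succ fun K => ?_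
  cases n with
  | zero => simp [coeff_zero]
  | succ n =>
    show _ ≤ (P a (K + 1)).coeff (n + 1)
    rw [coeff_succ]
    exact le_add_of_nonneg_right (mul_nonneg (ha _) (coeff_nonneg a ha _ _))

theorem coeff_pos (a : ℕ → ℝ) (ha : ∀ k, 0 < a k) (n : ℕ) : 0 < (P a n).coeff n := by
  induction n with
  | zero => rw [coeff_zero]; norm_num
  | succ n ih =>
    rw [coeff_succ]
    exact add_pos_of_nonneg_of_pos (coeff_nonneg a (fun k => (ha k).le) _ _) (mul_pos (ha _) ih)

theorem co_nil_sum (K : ℕ) : ∑ j ∈ range (K + 1), co [] j = 1 := by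
  unfold co
  simp

theorem co_cons_zero (s : ℕ) (w : List ℕ) : co (s :: w) 0 = 0 := by simp [co]

theorem co_cons_succ (s : ℕ) (w : List ℕ) (K : ℕ) :
    co (s :: w) (K + 1) = (((K + 1 : ℕ) : ℝ≥0∞) ^ s)⁻¹ * ∑ j ∈ range (K + 1), co w j := by
  simp [co]

theorem sum_ne_top (w : List ℕ) (hw : ∀ x ∈ w, 2 ≤ x) (K : ℕ) : ∑ j ∈ range K, co w j ≠ ⊤ :=
  ((ENNReal.sum_le_tsum _).trans_lt (co_tsum_lt_top w hw)).ne

theorem replicate_ge {s : ℕ} (hs : 2 ≤ s) (n : ℕ) : ∀ x ∈ List.replicate n s, 2 ≤ x := by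
  intro x hx
  rw [List.eq_of_mem_replicate hx]
  exact hs

theorem coeff_eq_co {s : ℕ} (hs : 2 ≤ s) (K n : ℕ) :
    (P (an s) K).coeff n = (∑ j ∈ range (K + 1), co (List.replicate n s) j).toReal := by
  induction K generalizing n with
  | zero =>
    cases n with
    | zero => simp [P_zero, co]
    | succ n => simp [P_zero, List.replicate_succ, co, coeff_one]
  | succ K ih =>
    cases n with
    | zero =>
      rw [coeff_zero, List.replicate_zero, co_nil_sum]
      simp
    | succ n =>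
      rw [coeff_succ, ih, ih, sum_range_succ _ (K + 1), List.replicate_succ, co_cons_succ,
        ENNReal.toReal_add]
      · congr 1
        rw [ENNReal.toReal_mul]
        congr 1
        rw [ENNReal.toReal_inv, ENNReal.toReal_pow, ENNReal.toReal_natCast]
        simp [an]
      · rw [← List.replicate_succ]
        exact sum_ne_top _ (replicate_ge hs _) _
      · refine ENNReal.mul_ne_top ?_ (sum_ne_top _ (replicate_ge hs _) _)
        rw [ENNReal.inv_ne_top]
        exact pow_ne_zero _ (by exact_mod_cast Nat.succ_ne_zero K)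

/-- `ζ({s}^n)`. -/
noncomputable def z (s n : ℕ) : ℝ := mzv (List.replicate n s)

theorem tendsto_coeff {s : ℕ} (hs : 2 ≤ s) (n : ℕ) :
    Tendsto (fun K => (P (an s) K).coeff n) atTop (𝓝 (z s n)) := by
  have h1 : Tendsto (fun K => ∑ j ∈ range K, co (List.replicate n s) j) atTop
      (𝓝 (∑' j, co (List.replicate n s) j)) := ENNReal.summable.hasSum.tendsto_sum_nat
  have h2 : Tendsto (fun K => ∑ j ∈ range (K + 1), co (List.replicate n s) j) atTop
      (𝓝 (∑' j, co (List.replicate n s) j)) := h1.comp (tendsto_add_atTop_nat 1)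
  have h3 := (ENNReal.tendsto_toReal (co_tsum_lt_top _ (replicate_ge hs n)).ne).comp h2
  unfold z
  rw [mzv_eq_co]
  refine h3.congr fun K => ?_
  rw [coeff_eq_co hs]
  rfl

theorem z_zero {s : ℕ} (hs : 2 ≤ s) : z s 0 = 1 := by
  refine tendsto_nhds_unique (tendsto_coeff hs 0) ?_
  simp only [coeff_zero]
  exact tendsto_const_nhds

theorem z_pos {s : ℕ} (hs : 2 ≤ s) (n : ℕ) : 0 < z s n :=
  (coeff_pos (an s) (an_pos s) n).trans_le
    ((coeff_mono (an s) (fun k => (an_pos s k).le) n).ge_of_tendsto (tendsto_coeff hs n) n)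

end Pool.T78
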