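import Pool.Agent.LibT78.E1

/-!
The relations between the elementary symmetric functions of `a`, of `a ^ 2` and the power sums.
-/

set_option autoImplicit false

namespace Pool.T78

open Polynomial Finset Filter
open scoped Topology

theorem coeff_neg (a : ℕ → ℝ) (K n : ℕ) :
    (P (fun k => -a k) K).coeff n = (-1) ^ n * (P a K).coeff n := by
  induction K generalizing n with
  | zero =>
    rw [P_zero, P_zero, coeff_one]
    split_ifs with h
    · subst h; simp
    · simp
  | succ K ih =>
    cases n with
    | zero => simp [coeff_zero]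
    | succ n =>
      rw [coeff_succ, coeff_succ, ih, ih]
      ring

theorem mul_neg_eq (a : ℕ → ℝ) (K : ℕ) :
    P a K * P (fun k => -a k) K = expand ℝ 2 (P (fun k => -(a k) ^ 2) K) := by
  unfold P
  rw [← prod_mul_distrib, map_prod]
  refine prod_congr rfl fun k _ => ?_
  simp only [map_add, map_mul, map_one, expand_C, expand_X, map_neg, map_pow]
  ring

theorem conv_finite (a : ℕ → ℝ) (K m : ℕ) :
    ∑ x ∈ antidiagonal (2 * m), (-1) ^ x.2 * ((P a K).coeff x.1 * (P a K).coeff x.2) =
      (-1) ^ m * (P (fun k => (a k) ^ 2) K).coeff m := by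
  have h := congrArg (fun p => p.coeff (m * 2)) (mul_neg_eq a K)
  simp only [coeff_expand_mul (by norm_num : 0 < 2)] at h
  rw [coeff_mul, coeff_neg (fun k => (a k) ^ 2)] at h
  rw [← h, mul_comm m 2]
  refine sum_congr rfl fun x _ => ?_
  rw [coeff_neg]
  ring

/-- The power sums. -/
noncomputable def ps (a : ℕ → ℝ) (K n : ℕ) : ℝ := ∑ k ∈ range K, (a k) ^ n

theorem geo (a : ℝ) :
    (1 + PowerSeries.C a * PowerSeries.X) * PowerSeries.mk (fun r => (-1) ^ r * a ^ (r + 1)) =
      PowerSeries.C a := by
  ext n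
  cases n with
  | zero => simp
  | succ n =>
    rw [add_mul, one_mul, map_add, mul_assoc, PowerSeries.coeff_C_mul, mul_comm PowerSeries.X,
      PowerSeries.coeff_succ_mul_X, PowerSeries.coeff_mk, PowerSeries.coeff_mk, PowerSeries.coeff_C]
    simp
    ring

theorem newton_series (a : ℕ → ℝ) (K : ℕ) :
    ((derivative (P a K) : ℝ[X]) : PowerSeries ℝ) = (P a K : PowerSeries ℝ) *
      PowerSeries.mk (fun r => (-1) ^ r * ps a K (r + 1)) := by
  induction K with
  | zero =>
    have h0 : PowerSeries.mk (fun r => (-1) ^ r * ps a 0 (r + 1)) = 0 := by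
      ext n
      simp [ps]
    rw [h0, P_zero]
    simp
  | succ K ih =>
    have h1 : PowerSeries.mk (fun r => (-1) ^ r * ps a (K + 1) (r + 1)) =
        PowerSeries.mk (fun r => (-1) ^ r * ps a K (r + 1)) +
          PowerSeries.mk (fun r => (-1) ^ r * (a K) ^ (r + 1)) := by
      ext n
      simp [ps, sum_range_succ, mul_add]
    rw [h1, P_succ, derivative_mul]
    have h2 : derivative (1 + C (a K) * X) = C (a K) := by simp
    rw [h2]
    push_cast
    rw [ih]
    have h3 := geo (a K)
    linear_combination (-(P a K : PowerSeries ℝ)) * h3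

theorem newton_finite (a : ℕ → ℝ) (K n : ℕ) :
    (P a K).coeff (n + 1) * (n + 1) =
      ∑ x ∈ antidiagonal n, (P a K).coeff x.1 * ((-1) ^ x.2 * ps a K (x.2 + 1)) := by
  have h := congrArg (PowerSeries.coeff n) (newton_series a K)
  rw [coeff_coe, coeff_derivative, PowerSeries.coeff_mul] at h
  rw [h]
  refine sum_congr rfl fun x _ => ?_
  rw [coeff_coe, PowerSeries.coeff_mk]

end Pool.T78
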