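import Pool.Agent.LibT78.E2

/-!
The relations between the values `ζ({s}^n)`, and `ζ({2t}^n)` is a positive rational multiple of `π ^ (2tn)`.
-/

set_option autoImplicit false

namespace Pool.T78

open Finset Filter
open scoped Topology

theorem an_sq (s k : ℕ) : (an s k) ^ 2 = an (2 * s) k := by
  unfold an
  rw [inv_pow, ← pow_mul, mul_comm s 2]

/-- `∑_{i+j=2m} (-1)^j ζ({s}^i) ζ({s}^j) = (-1)^m ζ({2s}^m)`. -/
theorem conv {s : ℕ} (hs : 2 ≤ s) (m : ℕ) :
    ∑ x ∈ antidiagonal (2 * m), (-1) ^ x.2 * (z s x.1 * z s x.2) = (-1) ^ m * z (2 * s) m := by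
  have h1 : Tendsto (fun K => ∑ x ∈ antidiagonal (2 * m),
      (-1) ^ x.2 * ((P (an s) K).coeff x.1 * (P (an s) K).coeff x.2)) atTop
      (𝓝 (∑ x ∈ antidiagonal (2 * m), (-1) ^ x.2 * (z s x.1 * z s x.2))) :=
    tendsto_finsetSum _ fun x _ =>
      ((tendsto_coeff hs x.1).mul (tendsto_coeff hs x.2)).const_mul _
  have h2 : Tendsto (fun K => (-1) ^ m * (P (an (2 * s)) K).coeff m) atTop
      (𝓝 ((-1) ^ m * z (2 * s) m)) := (tendsto_coeff (by omega) m).const_mul _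
  refine tendsto_nhds_unique h1 (h2.congr fun K => ?_)
  rw [conv_finite]
  simp only [an_sq]

theorem ps_tendsto {t : ℕ} (ht : 0 < t) (r : ℕ) :
    ∃ q : ℚ, Tendsto (fun K => ps (an (2 * t)) K (r + 1)) atTop
      (𝓝 ((q : ℝ) * Real.pi ^ (2 * t * (r + 1)))) := by
  have hk : t * (r + 1) ≠ 0 := by positivity
  refine ⟨(-1) ^ (t * (r + 1) + 1) * 2 ^ (2 * (t * (r + 1)) - 1) * bernoulli (2 * (t * (r + 1))) /
    (Nat.factorial (2 * (t * (r + 1)))), ?_⟩
  have h1 := (hasSum_zeta_nat hk).tendsto_sum_nat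
  have h2 := h1.comp (tendsto_add_atTop_nat 1)
  have e : (((-1) ^ (t * (r + 1) + 1) * 2 ^ (2 * (t * (r + 1)) - 1) * bernoulli (2 * (t * (r + 1))) /
      (Nat.factorial (2 * (t * (r + 1)))) : ℚ) : ℝ) * Real.pi ^ (2 * t * (r + 1)) =
      (-1 : ℝ) ^ (t * (r + 1) + 1) * (2 : ℝ) ^ (2 * (t * (r + 1)) - 1) *
        Real.pi ^ (2 * (t * (r + 1))) * bernoulli (2 * (t * (r + 1))) /
          (Nat.factorial (2 * (t * (r + 1)))) := by
    push_cast
    rw [mul_assoc 2 t (r + 1)]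
    ring
  rw [e]
  refine h2.congr fun K => ?_
  show ∑ k ∈ range (K + 1), 1 / (k : ℝ) ^ (2 * (t * (r + 1))) = _
  rw [sum_range_succ']
  have h0 : (1 : ℝ) / ((0 : ℕ) : ℝ) ^ (2 * (t * (r + 1))) = 0 := by
    rw [Nat.cast_zero, zero_pow (by positivity)]
    simp
  rw [h0, add_zero]
  unfold ps
  refine sum_congr rfl fun k _ => ?_
  unfold an
  rw [inv_pow, ← pow_mul, one_div, mul_assoc 2 t (r + 1)]
  push_cast
  rfl

/-- `ζ({2t}^n)` is a rational multiple of `π ^ (2tn)`. -/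
theorem z_even {t : ℕ} (ht : 0 < t) (n : ℕ) :
    ∃ q : ℚ, z (2 * t) n = (q : ℝ) * Real.pi ^ (2 * t * n) := by
  have hs : 2 ≤ 2 * t := by omega
  choose q hq using fun r => ps_tendsto ht r
  induction n using Nat.strong_induction_on with
  | _ n ih =>
    cases n with
    | zero => exact ⟨1, by rw [z_zero hs]; simp⟩
    | succ n =>
      have h1 : Tendsto (fun K => (P (an (2 * t)) K).coeff (n + 1) * (n + 1)) atTop
          (𝓝 (z (2 * t) (n + 1) * (n + 1))) := (tendsto_coeff hs (n + 1)).mul_const _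
      have h2 : Tendsto (fun K => ∑ x ∈ antidiagonal n, (P (an (2 * t)) K).coeff x.1 *
          ((-1) ^ x.2 * ps (an (2 * t)) K (x.2 + 1))) atTop
          (𝓝 (∑ x ∈ antidiagonal n, z (2 * t) x.1 *
            ((-1) ^ x.2 * ((q x.2 : ℝ) * Real.pi ^ (2 * t * (x.2 + 1)))))) :=
        tendsto_finsetSum _ fun x _ => (tendsto_coeff hs x.1).mul ((hq x.2).const_mul _)
      have h3 := tendsto_nhds_unique h1 (h2.congr fun K => (newton_finite _ _ _).symm)
      choose! c hc using ih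
      refine ⟨(∑ x ∈ antidiagonal n, c x.1 * ((-1) ^ x.2 * q x.2)) / (n + 1), ?_⟩
      have hn : ((n : ℝ) + 1) ≠ 0 := by positivity
      have h4 : z (2 * t) (n + 1) = (∑ x ∈ antidiagonal n, z (2 * t) x.1 *
            ((-1) ^ x.2 * ((q x.2 : ℝ) * Real.pi ^ (2 * t * (x.2 + 1))))) / (n + 1) := by
        rw [← h3]
        field_simp
      rw [h4]
      push_cast
      rw [div_mul_eq_mul_div, sum_mul]
      congr 1
      refine sum_congr rfl fun x hx => ?_
      have hx' := mem_antidiagonal.1 hx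
      rw [hc x.1 (by omega)]
      have e : 2 * t * (n + 1) = 2 * t * x.1 + 2 * t * (x.2 + 1) := by
        rw [← hx']; ring
      rw [e, pow_add]
      ring

/-- The relation used: `π ^ (2sm)` is a nonzero rational multiple of a bilinear expression. -/
theorem pi_pow {s : ℕ} (hs : 2 ≤ s) (m : ℕ) :
    ∃ q : ℚ, Real.pi ^ (2 * s * m) =
      ∑ x ∈ antidiagonal (2 * m), ((q * (-1) ^ x.2 : ℚ) : ℝ) * (z s x.1 * z s x.2) := by
  obtain ⟨c, hc⟩ := z_even (t := s) (by omega) m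
  have hpos := z_pos (s := 2 * s) (by omega) m
  have hc0 : (c : ℝ) ≠ 0 := by
    intro h
    rw [hc, h, zero_mul] at hpos
    exact lt_irrefl _ hpos
  refine ⟨(-1) ^ m / c, ?_⟩
  have h := conv hs m
  rw [hc] at h
  have h1 : ∑ x ∈ antidiagonal (2 * m), (((-1) ^ m / c * (-1) ^ x.2 : ℚ) : ℝ) * (z s x.1 * z s x.2) =
      ((-1) ^ m / c) * ∑ x ∈ antidiagonal (2 * m), (-1) ^ x.2 * (z s x.1 * z s x.2) := by
    rw [mul_sum]
    refine sum_congr rfl fun x _ => ?_
    push_cast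
    ring
  rw [h1, h]
  have h2 : ((-1 : ℝ) ^ m) * (-1) ^ m = 1 := by
    rw [← mul_pow]; norm_num
  field_simp
  linear_combination -h2

end Pool.T78
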