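import Pool.Agent.LibT78.E3

/-!
Linear algebra: a space whose square contains many powers of a transcendental number is large.
-/

set_option autoImplicit false

namespace Pool.T78

open Finset Module
open scoped Pointwise

theorem linInd_pow {K : Type*} [Field K] [Algebra K ℂ] {x : ℂ} (hx : Transcendental K x) :
    LinearIndependent K (fun n : ℕ => x ^ n) := by
  have h := (Polynomial.basisMonomials K).linearIndependent.map' (Polynomial.aeval x).toLinearMap
    (LinearMap.ker_eq_bot.2 (transcendental_iff_injective.1 hx))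
  have e : (fun n : ℕ => x ^ n) = ⇑(Polynomial.aeval x).toLinearMap ∘ ⇑(Polynomial.basisMonomials K) := by
    funext n
    simp
  rw [e]
  exact h

theorem finrank_mul_self_le {K : Type*} [Field K] [Algebra K ℂ] (W : Submodule K ℂ)
    [FiniteDimensional K W] :
    FiniteDimensional K (W * W : Submodule K ℂ) ∧
      finrank K (W * W : Submodule K ℂ) ≤ (finrank K W + 1).choose 2 := by
  classical
  set b := Module.finBasis K W with hb
  let f : Sym2 (Fin (finrank K W)) → ℂ :=
    Sym2.lift ⟨fun i j => (b i : ℂ) * (b j : ℂ), fun i j => mul_comm _ _⟩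
  have hW : W = Submodule.span K (Set.range fun i => (b i : ℂ)) := by
    have h1 : Submodule.map W.subtype (Submodule.span K (Set.range b)) = W := by
      rw [b.span_eq, Submodule.map_top, Submodule.range_subtype]
    rw [Submodule.map_span, ← Set.range_comp] at h1
    exact h1.symm
  have h2 : W * W ≤ Submodule.span K (Set.range f) := by
    conv_lhs => rw [hW]
    rw [Submodule.span_mul_span, Submodule.span_le]
    rintro _ ⟨_, ⟨i, rfl⟩, _, ⟨j, rfl⟩, rfl⟩
    exact Submodule.subset_span ⟨s(i, j), rfl⟩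
  have : FiniteDimensional K (Submodule.span K (Set.range f)) :=
    FiniteDimensional.span_of_finite K (Set.finite_range f)
  refine ⟨Submodule.finiteDimensional_of_le h2, (Submodule.finrank_mono h2).trans ?_⟩
  refine (finrank_range_le_card (R := K) f).trans ?_
  rw [Sym2.card, Fintype.card_fin]

theorem count {K : Type*} [Field K] [Algebra K ℂ] {x : ℂ} (hx : Transcendental K x)
    (W : Submodule K ℂ) [FiniteDimensional K W] (c N : ℕ) (hc : 0 < c)
    (h : ∀ m ≤ N, x ^ (c * m) ∈ W * W) : N < (finrank K W + 1).choose 2 := by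
  obtain ⟨h1, h2⟩ := finrank_mul_self_le W
  have := h1
  have hli : LinearIndependent K (fun m : Fin (N + 1) => x ^ (c * (m : ℕ))) :=
    (linInd_pow hx).comp (fun m : Fin (N + 1) => c * (m : ℕ)) (fun a b hab => by
      have := Nat.eq_of_mul_eq_mul_left hc hab
      exact Fin.ext this)
  have hli2 : LinearIndependent K (fun m : Fin (N + 1) =>
      (⟨x ^ (c * (m : ℕ)), h m (by omega)⟩ : (W * W : Submodule K ℂ))) := by
    refine LinearIndependent.of_comp (W * W).subtype ?_
    exact hli
  have h3 := hli2.fintype_card_le_finrank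
  rw [Fintype.card_fin] at h3
  omega

open Classical in
/-- The general count. -/
theorem main_count {K : Type*} [Field K] [Algebra K ℂ] [Algebra ℚ K] [IsScalarTower ℚ K ℂ]
    (hx : Transcendental K ((Real.pi : ℝ) : ℂ)) {s : ℕ} (hs : 2 ≤ s)
    (V : Submodule K ℂ) [FiniteDimensional K V] (N : ℕ) :
    N < (#{n ∈ range (N + 1) | ((z s n : ℝ) : ℂ) ∉ V} + finrank K V) *
      (#{n ∈ range (N + 1) | ((z s n : ℝ) : ℂ) ∉ V} + finrank K V + 1) := by
  set B := {n ∈ range (N + 1) | ((z s n : ℝ) : ℂ) ∉ V} with hB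
  let U : Submodule K ℂ := Submodule.span K ((B.image fun n => ((z s n : ℝ) : ℂ) : Finset ℂ) : Set ℂ)
  have : FiniteDimensional K U := FiniteDimensional.span_finset K _
  have hU : finrank K U ≤ #B := (finrank_span_finset_le_card _).trans card_image_le
  have hW : ∀ n ≤ N, ((z s n : ℝ) : ℂ) ∈ V ⊔ U := by
    intro n hn
    by_cases h : ((z s n : ℝ) : ℂ) ∈ V
    · exact Submodule.mem_sup_left h
    · refine Submodule.mem_sup_right (Submodule.subset_span ?_)
      rw [coe_image]
      exact ⟨n, by rw [hB, coe_filter]; exact ⟨mem_range.2 (by omega), h⟩, rfl⟩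
  have hpow : ∀ m ≤ N / 2, ((Real.pi : ℝ) : ℂ) ^ ((2 * s) * m) ∈ (V ⊔ U) * (V ⊔ U) := by
    intro m hm
    obtain ⟨q, hq⟩ := pi_pow hs m
    have hq' : ((Real.pi : ℝ) : ℂ) ^ (2 * s * m) = ∑ x ∈ antidiagonal (2 * m),
        (algebraMap ℚ K (q * (-1) ^ x.2)) • (((z s x.1 : ℝ) : ℂ) * ((z s x.2 : ℝ) : ℂ)) := by
      have h1 := congrArg (fun r : ℝ => (r : ℂ)) hq
      simp only [Complex.ofReal_pow, Complex.ofReal_sum, Complex.ofReal_mul] at h1
      rw [h1]
      refine sum_congr rfl fun x _ => ?_
      rw [Algebra.smul_def, ← IsScalarTower.algebraMap_apply ℚ K ℂ]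
      simp
    rw [hq']
    refine Submodule.sum_mem _ fun x hx => Submodule.smul_mem _ _ ?_
    have hx' := mem_antidiagonal.1 hx
    exact Submodule.mul_mem_mul (hW _ (by omega)) (hW _ (by omega))
  have h1 := count hx (V ⊔ U) (2 * s) (N / 2) (by omega) hpow
  have h2 : finrank K (V ⊔ U : Submodule K ℂ) ≤ #B + finrank K V := by
    have := Submodule.finrank_add_le_finrank_add_finrank V U
    omega
  have h3 : (finrank K (V ⊔ U : Submodule K ℂ) + 1).choose 2 ≤ (#B + finrank K V + 1).choose 2 :=
    Nat.choose_le_choose 2 (by omega)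
  have h4 : (#B + finrank K V + 1).choose 2 * 2 = (#B + finrank K V) * (#B + finrank K V + 1) := by
    rw [Nat.choose_two_right, Nat.add_sub_cancel, Nat.div_mul_cancel, mul_comm]
    rw [mul_comm]
    exact (Nat.even_mul_succ_self _).two_dvd
  omega

end Pool.T78
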